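import Pool.Agent.helper38.VA.Spec

/-! Row va:F3: spaces of logarithms with an element of rank one. -/

set_option autoImplicit false

namespace Pool.Agent.VA

open Matrix Module Pool.Agent.PR Pool.Agent.H48SL

theorem F3_pow_mulVec {n : ℕ} (X : MQ n) (w : Fin n → ℚ) (c : ℚ) (h : X *ᵥ w = c • w) (k : ℕ) :
    X ^ k *ᵥ w = c ^ k • w := by
  induction k with
  | zero => simp
  | succ k ih =>
    rw [pow_succ, ← Matrix.mulVec_mulVec, h, Matrix.mulVec_smul, ih, smul_smul, pow_succ, mul_comm]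

theorem F3_sq {n : ℕ} (X : MQ n) (hn : IsNilpotent X) (hr : X.rank = 1) : X * X = 0 := by
  unfold Matrix.rank at hr
  obtain ⟨⟨w, hw⟩, hw0, hall⟩ := finrank_eq_one_iff'.1 hr
  have hw0' : w ≠ 0 := fun h => hw0 (Subtype.ext h)
  have key : ∀ v, ∃ c : ℚ, X *ᵥ v = c • w := by
    intro v
    obtain ⟨c, hc⟩ := hall ⟨X.mulVecLin v, LinearMap.mem_range_self _ v⟩
    refine ⟨c, ?_⟩
    have := congrArg Subtype.val hc
    simpa using this.symm
  obtain ⟨c, hc⟩ := key w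
  obtain ⟨k, hk⟩ := hn
  have h1 := F3_pow_mulVec X w c hc k
  rw [hk, Matrix.zero_mulVec] at h1
  have hc0 : c = 0 := by
    rcases smul_eq_zero.1 h1.symm with h | h
    · by_contra hc0
      exact pow_ne_zero k hc0 h
    · exact absurd h hw0'
  apply Matrix.toLin'.injective
  apply LinearMap.ext
  intro v
  obtain ⟨d, hd⟩ := key v
  rw [Matrix.toLin'_apply, ← Matrix.mulVec_mulVec, hd, Matrix.mulVec_smul, hc, hc0, zero_smul,
    smul_zero, map_zero, LinearMap.zero_apply]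

theorem F3_inj {n : ℕ} {a b : SLZ n} (h : stdM ℚ a = stdM ℚ b) : a = b := by
  apply Subtype.ext
  unfold stdM at h
  exact Matrix.map_injective (RingHom.injective_int (Int.castRingHom ℚ)) h

theorem F3_exp_nat {n : ℕ} (a : SLZ n) (Z : MQ n) (hZ : IsNilpotent Z)
    (h : stdM ℚ a = IsNilpotent.exp Z) (k : ℕ) : stdM ℚ (a ^ k) = IsNilpotent.exp ((k : ℚ) • Z) := by
  induction k with
  | zero => simp [stdM_one]
  | succ k ih =>
    rw [pow_succ, stdM_mul, ih, h, ← IsNilpotent.exp_add_of_commute ((Commute.refl Z).smul_left _)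
      (hZ.smul _) hZ]
    congr 1
    push_cast
    rw [add_smul, one_smul]

theorem F3_exp_neg {n : ℕ} (a : SLZ n) (Z : MQ n) (hZ : IsNilpotent Z)
    (h : stdM ℚ a = IsNilpotent.exp Z) : stdM ℚ a⁻¹ = IsNilpotent.exp (-Z) := by
  calc stdM ℚ a⁻¹ = stdM ℚ a⁻¹ * (IsNilpotent.exp Z * IsNilpotent.exp (-Z)) := by
        rw [IsNilpotent.exp_mul_exp_neg_self hZ, mul_one]
    _ = (stdM ℚ a⁻¹ * stdM ℚ a) * IsNilpotent.exp (-Z) := by rw [h, mul_assoc]
    _ = IsNilpotent.exp (-Z) := by rw [stdM_inv_mul, one_mul]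

theorem F3_exp_int {n : ℕ} (a : SLZ n) (Z : MQ n) (hZ : IsNilpotent Z)
    (h : stdM ℚ a = IsNilpotent.exp Z) (m : ℤ) : stdM ℚ (a ^ m) = IsNilpotent.exp ((m : ℚ) • Z) := by
  obtain ⟨k, rfl | rfl⟩ := m.eq_nat_or_neg
  · rw [zpow_natCast, F3_exp_nat a Z hZ h k]
    simp
  · rw [_root_.zpow_neg, zpow_natCast, F3_exp_neg _ _ (hZ.smul _) (F3_exp_nat a Z hZ h k)]
    congr 1
    push_cast
    rw [neg_smul]

theorem F3 (hC2 : C2_stmt) (hF1 : F1_stmt) : F3_stmt := by
  intro n hn H hH W hdim hnil hcom hlog hX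
  obtain ⟨X, hXW, hXr⟩ := hX
  have hXn := hnil X hXW
  have hXX := F3_sq X hXn hXr
  have hX0 : X ≠ 0 := by
    rintro rfl
    rw [Matrix.rank_zero] at hXr
    omega
  obtain ⟨k, hk, t, htH, ht⟩ := hlog X hXW
  have hk0 : (k : ℚ) ≠ 0 := by positivity
  -- an element which is not a multiple of `X`
  obtain ⟨Y, hYW, hYX⟩ : ∃ Y ∈ W, ∀ c : ℚ, Y ≠ c • X := by
    by_contra hcon
    push Not at hcon
    have hle : W ≤ Submodule.span ℚ {X} := by
      intro Y hY
      obtain ⟨c, hc⟩ := hcon Y hY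
      rw [Submodule.mem_span_singleton]
      exact ⟨c, hc.symm⟩
    have h1 := Submodule.finrank_mono hle
    have h2 : finrank ℚ (Submodule.span ℚ {X}) = 1 := finrank_span_singleton hX0
    omega
  obtain ⟨l, hl, u, huH, hu⟩ := hlog Y hYW
  have hl0 : (l : ℚ) ≠ 0 := by positivity
  have hYn := hnil Y hYW
  have hkX : IsNilpotent ((k : ℚ) • X) := hXn.smul _
  have hlY : IsNilpotent ((l : ℚ) • Y) := hYn.smul _
  have hXY : Commute X Y := hcom X hXW Y hYW
  have hcomm : Commute ((k : ℚ) • X) ((l : ℚ) • Y) := (hXY.smul_left _).smul_right _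
  -- `t` and `u` commute
  have htu : t * u = u * t := by
    apply F3_inj
    rw [stdM_mul, stdM_mul, ht, hu, ← IsNilpotent.exp_add_of_commute hcomm hkX hlY,
      ← IsNilpotent.exp_add_of_commute hcomm.symm hlY hkX, add_comm]
  -- the rank
  have ht1 : stdM ℚ t - 1 = (k : ℚ) • X := by
    have h2 : ((k : ℚ) • X) ^ 2 = 0 := by
      rw [pow_two, smul_mul_smul_comm, hXX, smul_zero]
    rw [ht, IsNilpotent.exp_eq_sum h2]
    simp [Finset.sum_range_succ]
  have htr : (stdM ℚ t - 1).rank = 1 := by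
    rw [ht1, Matrix.rank_smul_of_mem_nonZeroDivisors X (mem_nonZeroDivisors_of_ne_zero hk0), hXr]
  refine hF1 n hn H hH t htH u huH htu htr ?_
  intro a ha m hum
  have h1 := F3_exp_nat u _ hlY hu a
  have h2 := F3_exp_int t _ hkX ht m
  rw [hum, h2] at h1
  obtain ⟨lg, -, hlg⟩ := hC2 n ℚ
  have h3 := congrArg lg h1
  rw [hlg _ (hkX.smul _), hlg _ (hlY.smul _)] at h3
  have ha0 : (a : ℚ) ≠ 0 := by positivity
  apply hYX (((a : ℚ) * l)⁻¹ * (m * k))
  rw [smul_smul, smul_smul] at h3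
  rw [mul_smul, h3, smul_smul, inv_mul_cancel₀ (mul_ne_zero ha0 hl0), one_smul]

end Pool.Agent.VA
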